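import Pool.Agent.PRT.StmtsB

/-!
# PRT, row DFB: the second difference in `C^k`
-/

set_option autoImplicit false

namespace Pool.Agent.PRT.H14

open Set MeasureTheory
open scoped ContDiff

section

variable {V : Type} [NormedAddCommGroup V] [NormedSpace ℝ V]

/-- the case `k = 0` -/
theorem zero_order (ψ : E → V) (C : ℝ) (hs : ContDiff ℝ ∞ ψ) (hC : 0 ≤ C) (hb : Bm 2 C ψ)
    (z h : E) : ‖ψ (z + h) - ψ z - fderiv ℝ ψ z h‖ ≤ C * ‖h‖ ^ 2 := by
  have s1 : ContDiff ℝ ∞ (fderiv ℝ ψ) := hs.fderiv_right (by simp)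
  have b1 : Bd 1 C (fderiv ℝ ψ) := bm_succ.1 hb
  have hd : Differentiable ℝ ψ := hs.differentiable (by simp)
  have hd1 : Differentiable ℝ (fderiv ℝ ψ) := s1.differentiable (by simp)
  have lip : ∀ x ∈ segment ℝ z (z + h), ‖fderiv ℝ ψ x - fderiv ℝ ψ z‖ ≤ C * ‖h‖ := by
    intro x hx
    have h1 : ‖fderiv ℝ ψ x - fderiv ℝ ψ z‖ ≤ C * ‖x - z‖ := by
      have := Convex.norm_image_sub_le_of_norm_fderiv_le (𝕜 := ℝ) (s := (Set.univ : Set E))
        (f := fderiv ℝ ψ) (C := C) (x := z) (y := x)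
        (fun y _ => hd1 y) (fun y _ => by
          have := b1.bm.fderiv_le le_rfl y
          exact this) convex_univ (Set.mem_univ _) (Set.mem_univ _)
      exact this
    have h2 : ‖x - z‖ ≤ ‖h‖ := by
      obtain ⟨t, ht, rfl⟩ := (segment_eq_image' ℝ z (z + h)) ▸ hx
      have e : z + t • (z + h - z) - z = t • h := by
        simp
      rw [e, norm_smul, Real.norm_eq_abs, abs_of_nonneg ht.1]
      exact mul_le_of_le_one_left (norm_nonneg _) ht.2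
    exact h1.trans (mul_le_mul_of_nonneg_left h2 hC)
  have := Convex.norm_image_sub_le_of_norm_fderiv_le' (𝕜 := ℝ) (s := segment ℝ z (z + h))
    (f := ψ) (φ := fderiv ℝ ψ z) (C := C * ‖h‖) (x := z) (y := z + h)
    (fun y _ => hd y) lip (convex_segment _ _) (left_mem_segment ℝ _ _) (right_mem_segment ℝ _ _)
  have e : z + h - z = h := by abel
  rw [e] at this
  calc _ ≤ C * ‖h‖ * ‖h‖ := this
    _ = C * ‖h‖ ^ 2 := by ring

theorem fderiv_rem (ψ : E → V) (φ : E → E) (hψ : ContDiff ℝ ∞ ψ) (hφ : ContDiff ℝ ∞ φ) :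
    fderiv ℝ (fun z => ψ (z + φ z) - ψ z - fderiv ℝ ψ z (φ z)) =
      fun z => (fderiv ℝ ψ (z + φ z) - fderiv ℝ ψ z - fderiv ℝ (fderiv ℝ ψ) z (φ z)) +
        ContinuousLinearMap.compL ℝ E E V (fderiv ℝ ψ (z + φ z) - fderiv ℝ ψ z)
          (fderiv ℝ φ z) := by
  funext z
  have s1 : ContDiff ℝ ∞ (fderiv ℝ ψ) := hψ.fderiv_right (by simp)
  have d0 : Differentiable ℝ ψ := hψ.differentiable (by simp)
  have d1 : Differentiable ℝ (fderiv ℝ ψ) := s1.differentiable (by simp)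
  have dφ : Differentiable ℝ φ := hφ.differentiable (by simp)
  have hG : HasFDerivAt (fun z => z + φ z) (ContinuousLinearMap.id ℝ E + fderiv ℝ φ z) z :=
    (hasFDerivAt_id z).add (dφ z).hasFDerivAt
  have h1 : HasFDerivAt (fun z => ψ (z + φ z))
      ((fderiv ℝ ψ (z + φ z)).comp (ContinuousLinearMap.id ℝ E + fderiv ℝ φ z)) z :=
    HasFDerivAt.comp z (d0 (z + φ z)).hasFDerivAt hG
  have h2 : HasFDerivAt ψ (fderiv ℝ ψ z) z := (d0 z).hasFDerivAt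
  have h3 := HasFDerivAt.clm_apply (d1 z).hasFDerivAt (dφ z).hasFDerivAt
  have h4 := (h1.sub h2).sub h3
  have e := h4.fderiv
  have e' : fderiv ℝ (fun z => ψ (z + φ z) - ψ z - fderiv ℝ ψ z (φ z)) z = _ := e
  rw [e']
  have symm : ∀ u v : E, fderiv ℝ (fderiv ℝ ψ) z u v = fderiv ℝ (fderiv ℝ ψ) z v u := by
    have h2 : ContDiffAt ℝ ((2 : ℕ) : ℕ∞) ψ z := (hψ.of_le (by exact_mod_cast le_top)).contDiffAt
    have := h2.isSymmSndFDerivAt (by simp)
    intro u v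
    exact this u v
  refine ContinuousLinearMap.ext fun u => ?_
  simp [symm]
  abel

end

theorem dfb (hA : DfaStmt) : DfbStmt := by
  intro k
  induction k with
  | zero =>
    refine ⟨1, ?_⟩
    intro V _ _ ψ φ C D hψ hφ hC hb hD
    have hD0 := hD.nonneg
    intro i hi z
    obtain rfl : i = 0 := by omega
    rw [norm_iteratedFDeriv_zero]
    refine (zero_order ψ C hψ hC hb z (φ z)).trans ?_
    have h1 : ‖φ z‖ ≤ D := hD.norm_le z
    have h2 : ‖φ z‖ ^ 2 ≤ D ^ 2 := pow_le_pow_left₀ (norm_nonneg _) h1 2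
    have h3 : 0 ≤ C * D ^ 2 := by positivity
    calc C * ‖φ z‖ ^ 2 ≤ C * D ^ 2 := mul_le_mul_of_nonneg_left h2 hC
      _ ≤ C * D ^ 2 * (1 + D) := le_mul_of_one_le_right h3 (by linarith)
      _ = ((1 : ℕ) : ℝ) * C * D ^ 2 * (1 + D) ^ 1 := by push_cast; ring
  | succ k ih =>
    obtain ⟨c, hc⟩ := ih
    obtain ⟨c', hc'⟩ := hA k
    refine ⟨c + 2 ^ k * c' + c' + 1, ?_⟩
    intro V _ _ ψ φ C D hψ hφ hC hb hD
    have hD0 := hD.nonneg
    have s1 : ContDiff ℝ ∞ (fderiv ℝ ψ) := hψ.fderiv_right (by simp)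
    have s2 : ContDiff ℝ ∞ (fderiv ℝ (fderiv ℝ ψ)) := s1.fderiv_right (by simp)
    have sφ' : ContDiff ℝ ∞ (fderiv ℝ φ) := hφ.fderiv_right (by simp)
    have sG : ContDiff ℝ ∞ (fun z => z + φ z) := contDiff_id.add hφ
    have b1 : Bm (k + 2) C (fderiv ℝ ψ) := (bm_succ.1 hb).bm
    have bφ : Bd k D φ := hD.mono (Nat.le_succ _) le_rfl
    have i1 := hc (E →L[ℝ] V) (fderiv ℝ ψ) φ C D s1 hφ hC b1 bφ
    have i2 := hc' (E →L[ℝ] V) (fderiv ℝ ψ) φ C D s1 hφ hC (b1.mono (by omega) le_rfl) bφ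
    have bφ' : Bd k D (fderiv ℝ φ) := (bd_succ.1 hD).2
    have i3 := Bd.bil (ContinuousLinearMap.compL ℝ E E V)
      (ContinuousLinearMap.norm_compL_le ℝ E E V) i2 bφ' ((s1.comp sG).sub s1) sφ'
    have sm1 : ContDiff ℝ ∞ (fun z => fderiv ℝ ψ (z + φ z) - fderiv ℝ ψ z -
        fderiv ℝ (fderiv ℝ ψ) z (φ z)) := ((s1.comp sG).sub s1).sub (s2.clm_apply hφ)
    have sm2 : ContDiff ℝ ∞ (fun z => ContinuousLinearMap.compL ℝ E E V
        (fderiv ℝ ψ (z + φ z) - fderiv ℝ ψ z) (fderiv ℝ φ z)) :=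
      ((s1.comp sG).sub s1).clm_comp sφ'
    have i4 := Bd.add i1 i3 sm1 sm2
    rw [bd_succ]
    have hX : (1 : ℝ) ≤ 1 + D := by linarith
    have p0 : (1 : ℝ) ≤ (1 + D) ^ (c + 2 ^ k * c' + c' + 1) := one_le_pow₀ hX
    have pc : (1 + D) ^ c ≤ (1 + D) ^ (c + 2 ^ k * c' + c' + 1) :=
      pow_le_pow_right₀ hX (by omega)
    have pc' : (1 + D) ^ c' ≤ (1 + D) ^ (c + 2 ^ k * c' + c' + 1) :=
      pow_le_pow_right₀ hX (by omega)
    have hCD : 0 ≤ C * D ^ 2 := by positivity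
    constructor
    · intro z
      refine (zero_order ψ C hψ hC (hb.mono (by omega) le_rfl) z (φ z)).trans ?_
      have h1 : ‖φ z‖ ≤ D := hD.norm_le z
      have h2 : ‖φ z‖ ^ 2 ≤ D ^ 2 := pow_le_pow_left₀ (norm_nonneg _) h1 2
      have hone : (1 : ℝ) ≤ ((c + 2 ^ k * c' + c' + 1 : ℕ) : ℝ) := by
        exact_mod_cast Nat.le_add_left 1 _
      calc C * ‖φ z‖ ^ 2 ≤ C * D ^ 2 := mul_le_mul_of_nonneg_left h2 hC
        _ = 1 * (C * D ^ 2) * 1 := by ring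
        _ ≤ ((c + 2 ^ k * c' + c' + 1 : ℕ) : ℝ) * (C * D ^ 2) *
            (1 + D) ^ (c + 2 ^ k * c' + c' + 1) := by gcongr
        _ = ((c + 2 ^ k * c' + c' + 1 : ℕ) : ℝ) * C * D ^ 2 *
            (1 + D) ^ (c + 2 ^ k * c' + c' + 1) := by ring
    · rw [fderiv_rem ψ φ hψ hφ]
      refine i4.mono le_rfl ?_
      have hc0 : (0 : ℝ) ≤ c := Nat.cast_nonneg _
      have hc0' : (0 : ℝ) ≤ c' := Nat.cast_nonneg _
      calc (c : ℝ) * C * D ^ 2 * (1 + D) ^ c + 2 ^ k * (c' * C * D * (1 + D) ^ c') * D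
          = (c : ℝ) * (C * D ^ 2) * (1 + D) ^ c + 2 ^ k * c' * (C * D ^ 2) * (1 + D) ^ c' := by
            ring
        _ ≤ (c : ℝ) * (C * D ^ 2) * (1 + D) ^ (c + 2 ^ k * c' + c' + 1) +
            2 ^ k * c' * (C * D ^ 2) * (1 + D) ^ (c + 2 ^ k * c' + c' + 1) := by gcongr
        _ = ((c : ℝ) + 2 ^ k * c') * (C * D ^ 2 * (1 + D) ^ (c + 2 ^ k * c' + c' + 1)) := by ring
        _ ≤ ((c + 2 ^ k * c' + c' + 1 : ℕ) : ℝ) *
            (C * D ^ 2 * (1 + D) ^ (c + 2 ^ k * c' + c' + 1)) := by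
            apply mul_le_mul_of_nonneg_right _ (by positivity)
            push_cast
            linarith
        _ = _ := by ring

end Pool.Agent.PRT.H14
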