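import Pool.Agent.KTK.Stmts

/-!
# KTK, row SUB: subadditivity, an iterate with almost constant maximal growth
-/

set_option autoImplicit false

namespace Pool.Agent.KTK.H14

open Pool.Agent.PRT Filter
open scoped ContDiff Topology

theorem eqv_iter {F : E → E} (h : Eqv F) (n : ℕ) : Eqv (F^[n]) := by
  induction n with
  | zero => intro a b z; rfl
  | succ n ih =>
    intro a b z
    rw [Function.iterate_succ_apply', Function.iterate_succ_apply', ih, h]

theorem smooth_iter {F : E → E} (h : ContDiff ℝ ∞ F) (n : ℕ) : ContDiff ℝ ∞ (F^[n]) := by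
  induction n with
  | zero => exact contDiff_id
  | succ n ih =>
    rw [Function.iterate_succ']
    exact h.comp ih

theorem fderiv_iter_add {F : E → E} (h : ContDiff ℝ ∞ F) (m n : ℕ) (z : E) :
    fderiv ℝ (F^[m + n]) z = (fderiv ℝ (F^[m]) (F^[n] z)).comp (fderiv ℝ (F^[n]) z) := by
  rw [Function.iterate_add]
  have h1 : DifferentiableAt ℝ (F^[m]) (F^[n] z) :=
    ((smooth_iter h m).differentiable (by simp)).differentiableAt
  have h2 : DifferentiableAt ℝ (F^[n]) z :=
    ((smooth_iter h n).differentiable (by simp)).differentiableAt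
  exact fderiv_comp z h1 h2

theorem det_iter {F : E → E} (h : Cs F) (n : ℕ) (z : E) : (fderiv ℝ (F^[n]) z).det = 1 := by
  induction n generalizing z with
  | zero =>
    have : fderiv ℝ (F^[0]) z = ContinuousLinearMap.id ℝ E := fderiv_id
    rw [this, det_eq]
    simp [cr]
  | succ n ih =>
    rw [add_comm, fderiv_iter_add h.sm 1 n z]
    have e : ∀ A B : E →L[ℝ] E, (A.comp B).det = A.det * B.det := by
      intro A B
      have h1 := cr_map A (B (1, 0)) (B (0, 1))
      rw [det_eq (A.comp B), det_eq B]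
      exact h1
    rw [e, ih, Function.iterate_one, h.det, one_mul]

theorem fderiv_per {G : E → E} (h : Eqv G) (a b : ℤ) (z : E) :
    fderiv ℝ G (z + iv a b) = fderiv ℝ G z := by
  have e : (fun x => G (x + iv a b)) = fun x => G x + iv a b := by
    funext x
    exact h a b x
  have h1 : fderiv ℝ (fun x => G (x + iv a b)) z = fderiv ℝ G (z + iv a b) :=
    fderiv_comp_add_right (f := G) (x := z) (iv a b)
  rw [← h1, e, fderiv_add_const]

/-- the maximum of the norm of the derivative -/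
theorem exists_max {G : E → E} (hs : ContDiff ℝ ∞ G) (h : Eqv G) :
    ∃ z0, ∀ z, ‖fderiv ℝ G z‖ ≤ ‖fderiv ℝ G z0‖ := by
  have hc : Continuous fun z => ‖fderiv ℝ G z‖ := (hs.continuous_fderiv (by simp)).norm
  have hQ : IsCompact (Set.Icc (0 : ℝ) 1 ×ˢ Set.Icc (0 : ℝ) 1 : Set E) :=
    isCompact_Icc.prod isCompact_Icc
  obtain ⟨z0, -, hz0⟩ := hQ.exists_isMaxOn ⟨(0, 0), by simp⟩ hc.continuousOn
  refine ⟨z0, fun z => ?_⟩
  have e : z = ((Int.fract z.1, Int.fract z.2) : E) + iv ⌊z.1⌋ ⌊z.2⌋ := by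
    ext
    · simp [iv, Int.fract_add_floor]
    · simp [iv, Int.fract_add_floor]
  rw [e, fderiv_per h]
  refine hz0 ?_
  exact ⟨⟨Int.fract_nonneg _, (Int.fract_lt_one _).le⟩,
    ⟨Int.fract_nonneg _, (Int.fract_lt_one _).le⟩⟩

theorem norm_lower {A : E →L[ℝ] E} (h : A.det = 1) : 1 / 2 ≤ ‖A‖ := by
  have h1 := abs_cr_le (A (1, 0)) (A (0, 1))
  rw [← det_eq, h] at h1
  have n1 : ‖A (1, 0)‖ ≤ ‖A‖ := by
    have := A.le_opNorm ((1, 0) : E)
    have e : ‖((1, 0) : E)‖ = 1 := by simp [Prod.norm_def]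
    rwa [e, mul_one] at this
  have n2 : ‖A (0, 1)‖ ≤ ‖A‖ := by
    have := A.le_opNorm ((0, 1) : E)
    have e : ‖((0, 1) : E)‖ = 1 := by simp [Prod.norm_def]
    rwa [e, mul_one] at this
  by_contra hlt
  push Not at hlt
  have h0 := norm_nonneg A
  have h2 : 2 * ‖A (1, 0)‖ * ‖A (0, 1)‖ ≤ 2 * ‖A‖ * ‖A‖ := by gcongr
  have h3 : (1 : ℝ) ≤ 2 * ‖A‖ * ‖A‖ := by
    have : |(1 : ℝ)| = 1 := abs_one
    rw [this] at h1
    linarith
  nlinarith

theorem sub : SubStmt := by
  intro F hF hns η D0 hη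
  have hmax : ∀ n : ℕ, ∃ z0, ∀ z, ‖fderiv ℝ (F^[n]) z‖ ≤ ‖fderiv ℝ (F^[n]) z0‖ :=
    fun n => exists_max (smooth_iter hF.sm n) (eqv_iter hF.eqv n)
  choose z0 hz0 using hmax
  set M : ℕ → ℝ := fun n => ‖fderiv ℝ (F^[n]) (z0 n)‖ with hM
  have hMlow : ∀ n, 1 / 2 ≤ M n := fun n => norm_lower (det_iter hF n _)
  have hMpos : ∀ n, 0 < M n := fun n => lt_of_lt_of_le (by norm_num) (hMlow n)
  have hMmul : ∀ m n, M (m + n) ≤ M m * M n := by
    intro m n
    show ‖fderiv ℝ (F^[m + n]) (z0 (m + n))‖ ≤ _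
    rw [fderiv_iter_add hF.sm]
    refine (ContinuousLinearMap.opNorm_comp_le _ _).trans ?_
    exact mul_le_mul (hz0 m _) (hz0 n _) (norm_nonneg _) (hMpos m).le
  set a : ℕ → ℝ := fun n => Real.log (M n) with ha
  have hexp : ∀ n, Real.exp (a n) = M n := fun n => Real.exp_log (hMpos n)
  have hsub : Subadditive a := by
    intro m n
    show Real.log (M (m + n)) ≤ Real.log (M m) + Real.log (M n)
    rw [← Real.log_mul (hMpos m).ne' (hMpos n).ne']
    exact Real.log_le_log (hMpos _) (hMmul m n)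
  have halow : ∀ n, -Real.log 2 ≤ a n := by
    intro n
    have : Real.log (1 / 2) ≤ a n := Real.log_le_log (by norm_num) (hMlow n)
    rwa [one_div, Real.log_inv] at this
  have hlog2 : 0 < Real.log 2 := Real.log_pos (by norm_num)
  have hbdd : BddBelow (Set.range fun n : ℕ => a n / n) := by
    refine ⟨-Real.log 2, ?_⟩
    rintro _ ⟨n, rfl⟩
    show -Real.log 2 ≤ a n / n
    rcases Nat.eq_zero_or_pos n with rfl | hn
    · simp
      exact hlog2.le
    · have hn' : (1 : ℝ) ≤ n := by exact_mod_cast hn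
      rw [le_div_iff₀ (by linarith)]
      have := halow n
      nlinarith
  have hlim := hsub.tendsto_lim hbdd
  set L := hsub.lim with hL
  have hLle : ∀ n : ℕ, n ≠ 0 → L ≤ a n / n := fun n hn => hsub.lim_le_div hbdd hn
  have hLpos : 0 < L := by
    by_contra hle
    push Not at hle
    apply hns
    intro ε hε
    have hev : ∀ᶠ n : ℕ in atTop, a n / n < ε := hlim.eventually (gt_mem_nhds (by linarith))
    obtain ⟨n0, hn0⟩ := eventually_atTop.1 hev
    refine ⟨1 + ∑ n ∈ Finset.range (n0 + 1), M n, fun n z => ?_⟩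
    have hS : 0 ≤ ∑ n ∈ Finset.range (n0 + 1), M n :=
      Finset.sum_nonneg fun n _ => (hMpos n).le
    have hexp1 : 1 ≤ Real.exp (ε * n) := Real.one_le_exp (by positivity)
    refine (hz0 n z).trans ?_
    show M n ≤ _
    rcases lt_or_ge n (n0 + 1) with h | h
    · have h1 : M n ≤ ∑ n ∈ Finset.range (n0 + 1), M n :=
        Finset.single_le_sum (f := M) (fun n _ => (hMpos n).le) (Finset.mem_range.2 h)
      calc M n ≤ (1 + ∑ n ∈ Finset.range (n0 + 1), M n) * 1 := by linarith
        _ ≤ _ := by gcongr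
    · have h1 : a n / n < ε := hn0 n (by omega)
      have hn' : (0 : ℝ) < n := by exact_mod_cast (by omega : 0 < n)
      rw [div_lt_iff₀ hn'] at h1
      have h2 : M n ≤ Real.exp (ε * n) := by
        rw [← hexp n]
        exact Real.exp_le_exp.2 h1.le
      calc M n ≤ 1 * Real.exp (ε * n) := by linarith
        _ ≤ _ := by
          apply mul_le_mul_of_nonneg_right _ (by positivity)
          linarith
  have hδ : 0 < η * L / 2 := by positivity
  have ev1 : ∀ᶠ n : ℕ in atTop, a n / n < L + η * L / 2 :=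
    hlim.eventually (gt_mem_nhds (by linarith))
  have ev2 : ∀ᶠ n : ℕ in atTop, D0 / L ≤ (n : ℝ) :=
    tendsto_natCast_atTop_atTop.eventually_ge_atTop _
  have ev3 : ∀ᶠ n : ℕ in atTop, Real.log 2 / (η * L / 2) ≤ (n : ℝ) :=
    tendsto_natCast_atTop_atTop.eventually_ge_atTop _
  obtain ⟨m, h1, h2, h3, h4⟩ := (ev1.and (ev2.and (ev3.and (eventually_ge_atTop 1)))).exists
  have hm' : (0 : ℝ) < m := by exact_mod_cast h4
  rw [div_lt_iff₀ hm'] at h1
  rw [div_le_iff₀ hLpos] at h2
  rw [div_le_iff₀ hδ] at h3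
  refine ⟨m, L * m, a m + Real.log 2, h4, by linarith, ?_, ?_, ?_⟩
  · nlinarith
  · intro z
    have : Real.exp (a m + Real.log 2) / 2 = M m := by
      rw [Real.exp_add, Real.exp_log (by norm_num : (0 : ℝ) < 2), hexp]
      ring
    rw [this]
    exact hz0 m z
  · intro N
    rw [← Function.iterate_mul]
    refine ⟨z0 (m * N), ?_⟩
    show _ ≤ M (m * N)
    rw [← hexp]
    apply Real.exp_le_exp.2
    rcases Nat.eq_zero_or_pos N with rfl | hN
    · have : M (m * 0) = 1 := by
        show ‖fderiv ℝ (F^[m * 0]) (z0 (m * 0))‖ = 1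
        have e : fderiv ℝ (F^[m * 0]) (z0 (m * 0)) = ContinuousLinearMap.id ℝ E := by
          rw [Nat.mul_zero]
          exact fderiv_id
        rw [e, ContinuousLinearMap.norm_id]
      have e2 : a (m * 0) = 0 := by
        show Real.log (M (m * 0)) = 0
        rw [this, Real.log_one]
      rw [e2]
      simp
    · have hne : m * N ≠ 0 := (Nat.mul_pos h4 hN).ne'
      have := hLle (m * N) hne
      have hpos : (0 : ℝ) < ((m * N : ℕ) : ℝ) := by exact_mod_cast Nat.mul_pos h4 hN
      rw [le_div_iff₀ hpos] at this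
      push_cast at this
      linarith

end Pool.Agent.KTK.H14
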